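import Pool.Agent.R161.Bohr.Defs

/-!
BO-MEAN: abelian groups have invariant means.
-/

set_option autoImplicit false
set_option maxHeartbeats 400000

namespace Pool.Agent.R715.Bohr

open Finset Filter Topology Pool.Agent.R161.Bohr

universe u

variable {H : Type u} [AddCommGroup H]

theorem bdd_shift {f : H → ℂ} (h : Bdd f) (s : H) : Bdd (fun x => f (x + s)) := by
  obtain ⟨C, hC⟩ := h
  exact ⟨C, fun x => hC _⟩

/-- evaluation at zero -/
def ev0 (H : Type u) [AddCommGroup H] : St H where
  toFun f := f 0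
  add' _ _ _ _ := rfl
  smul' _ _ _ := rfl
  real' f _ := Complex.ofReal_im _
  nonneg' f _ h := by simpa using h 0
  one' := rfl

/-- average of a state over `0, s, ..., n s` -/
noncomputable def avg (m : St H) (s : H) (n : ℕ) : St H where
  toFun f := ((1 / ((n : ℝ) + 1) : ℝ) : ℂ) * ∑ j ∈ range (n + 1), m (fun x => f (x + j • s))
  add' f g hf hg := by
    rw [← mul_add, ← Finset.sum_add_distrib]
    congr 1
    apply Finset.sum_congr rfl
    intro j _
    exact m.add' _ _ (bdd_shift hf _) (bdd_shift hg _)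
  smul' c f hf := by
    have h : ∑ j ∈ range (n + 1), m (fun x => c * f (x + j • s)) =
        c * ∑ j ∈ range (n + 1), m (fun x => f (x + j • s)) := by
      rw [Finset.mul_sum]
      exact Finset.sum_congr rfl fun j _ => m.smul' c _ (bdd_shift hf _)
    rw [h]
    ring
  real' f hf := by
    rw [Complex.im_ofReal_mul, Complex.im_sum]
    rw [Finset.sum_eq_zero, mul_zero]
    intro j _
    obtain ⟨C, hC⟩ := hf
    exact m.real' (fun x => f (x + j • s)) ⟨C, fun x => hC _⟩
  nonneg' f hf h0 := by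
    rw [Complex.re_ofReal_mul, Complex.re_sum]
    apply mul_nonneg (by positivity)
    apply Finset.sum_nonneg
    intro j _
    obtain ⟨C, hC⟩ := hf
    exact m.nonneg' (fun x => f (x + j • s)) ⟨C, fun x => hC _⟩ (fun x => h0 _)
  one' := by
    have h1 : ∑ j ∈ range (n + 1), m (fun _ : H => (1 : ℂ)) = ((n : ℝ) + 1 : ℝ) := by
      rw [m.one']; simp
    rw [h1, ← Complex.ofReal_mul]
    have : (n : ℝ) + 1 ≠ 0 := by positivity
    rw [one_div, inv_mul_cancel₀ this, Complex.ofReal_one]

theorem avg_apply (m : St H) (s : H) (n : ℕ) (f : H → ℂ) :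
    avg m s n f = ((1 / ((n : ℝ) + 1) : ℝ) : ℂ) *
      ∑ j ∈ range (n + 1), m (fun x => f (x + j • s)) := rfl

theorem exists_approx (F : Finset H) (ε : ℝ) (hε : 0 < ε) : ∃ m : St H,
    (∀ (f : H → ℂ) (C : ℝ), (∀ x, ‖f x‖ ≤ C) → ‖m f‖ ≤ C) ∧
    ∀ s ∈ F, ∀ (f : H → ℂ) (C : ℝ), (∀ x, ‖f x‖ ≤ C) →
      ‖m (fun x => f (x + s)) - m f‖ ≤ ε * C := by
  classical
  induction F using Finset.induction_on with
  | empty =>
    refine ⟨ev0 H, fun f C h => h 0, ?_⟩
    intro s hs
    exact absurd hs (Finset.notMem_empty s)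
  | insert t F ht ih =>
    obtain ⟨m, hm1, hm2⟩ := ih
    obtain ⟨n, hn⟩ := exists_nat_gt (2 / ε)
    have hn1 : (0 : ℝ) < (n : ℝ) + 1 := by positivity
    have hn2 : 2 / ((n : ℝ) + 1) ≤ ε := by
      rw [div_le_iff₀ hn1]
      rw [div_lt_iff₀ hε] at hn
      nlinarith
    have hnorm : ‖((1 / ((n : ℝ) + 1) : ℝ) : ℂ)‖ = 1 / ((n : ℝ) + 1) := by
      rw [Complex.norm_real, Real.norm_eq_abs, abs_of_pos (by positivity)]
    have hsum : ∀ (a : ℕ → ℂ) (D : ℝ), (∀ j, ‖a j‖ ≤ D) →
        ‖((1 / ((n : ℝ) + 1) : ℝ) : ℂ) * ∑ j ∈ range (n + 1), a j‖ ≤ D := by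
      intro a D ha
      rw [norm_mul, hnorm]
      have h1 : ‖∑ j ∈ range (n + 1), a j‖ ≤ ((n : ℝ) + 1) * D := by
        refine (norm_sum_le _ _).trans ?_
        refine (Finset.sum_le_sum fun j _ => ha j).trans ?_
        rw [Finset.sum_const, Finset.card_range, nsmul_eq_mul]
        push_cast
        exact le_rfl
      calc 1 / ((n : ℝ) + 1) * ‖∑ j ∈ range (n + 1), a j‖
          ≤ 1 / ((n : ℝ) + 1) * (((n : ℝ) + 1) * D) := by
            apply mul_le_mul_of_nonneg_left h1 (by positivity)
        _ = D := by field_simp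
    refine ⟨avg m t n, ?_, ?_⟩
    · intro f C hf
      rw [avg_apply]
      exact hsum _ C fun j => hm1 _ C fun x => hf _
    · intro s hs f C hf
      rw [avg_apply, avg_apply, ← mul_sub, ← Finset.sum_sub_distrib]
      rcases Finset.mem_insert.1 hs with rfl | hs'
      · have h2 : ∑ j ∈ range (n + 1), (m (fun x => f (x + j • s + s)) - m (fun x => f (x + j • s)))
            = m (fun x => f (x + (n + 1) • s)) - m (fun x => f (x + 0 • s)) := by
          rw [← Finset.sum_range_sub (fun j => m (fun x => f (x + j • s)))]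
          apply Finset.sum_congr rfl
          intro j _
          congr 2
          funext x
          rw [add_assoc, succ_nsmul]
        rw [h2, norm_mul, hnorm]
        have h3 : ‖m (fun x => f (x + (n + 1) • s)) - m (fun x => f (x + 0 • s))‖ ≤ 2 * C := by
          refine (norm_sub_le _ _).trans ?_
          have a1 := hm1 (fun x => f (x + (n + 1) • s)) C (fun x => hf _)
          have a2 := hm1 (fun x => f (x + 0 • s)) C (fun x => hf _)
          linarith
        have hC : 0 ≤ C := (norm_nonneg _).trans (hf 0)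
        calc 1 / ((n : ℝ) + 1) * ‖m (fun x => f (x + (n + 1) • s)) - m (fun x => f (x + 0 • s))‖
            ≤ 1 / ((n : ℝ) + 1) * (2 * C) := by
              apply mul_le_mul_of_nonneg_left h3 (by positivity)
          _ = 2 / ((n : ℝ) + 1) * C := by ring
          _ ≤ ε * C := mul_le_mul_of_nonneg_right hn2 hC
      · apply hsum
        intro j
        have h4 := hm2 s hs' (fun x => f (x + j • t)) C (fun x => hf _)
        have h5 : (fun x => f (x + j • t + s)) = fun x => f (x + s + j • t) := by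
          funext x
          rw [add_right_comm]
        rw [h5]
        exact h4

/-- the approximately invariant states -/
noncomputable def M (i : Finset H × ℕ) : St H :=
  (exists_approx i.1 (1 / ((i.2 : ℝ) + 1)) (by positivity)).choose

theorem M_bound (i : Finset H × ℕ) (f : H → ℂ) (C : ℝ) (h : ∀ x, ‖f x‖ ≤ C) : ‖M i f‖ ≤ C :=
  (exists_approx i.1 (1 / ((i.2 : ℝ) + 1)) (by positivity)).choose_spec.1 f C h

theorem M_inv (i : Finset H × ℕ) (s : H) (hs : s ∈ i.1) (f : H → ℂ) (C : ℝ)
    (h : ∀ x, ‖f x‖ ≤ C) : ‖M i (fun x => f (x + s)) - M i f‖ ≤ 1 / ((i.2 : ℝ) + 1) * C :=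
  (exists_approx i.1 (1 / ((i.2 : ℝ) + 1)) (by positivity)).choose_spec.2 s hs f C h

/-- an ultrafilter finer than `atTop` -/
noncomputable def UF (H : Type u) : Ultrafilter (Finset H × ℕ) :=
  Ultrafilter.of ((atTop : Filter (Finset H)) ×ˢ (atTop : Filter ℕ))

omit [AddCommGroup H] in
theorem UF_le : (UF H : Filter (Finset H × ℕ)) ≤ (atTop : Filter (Finset H)) ×ˢ (atTop : Filter ℕ) :=
  Ultrafilter.of_le _

open Classical in
/-- the limit -/
noncomputable def L (f : H → ℂ) : ℂ :=
  if h : ∃ x, Tendsto (fun i => M i f) (UF H) (𝓝 x) then h.choose else 0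

theorem L_spec (f : H → ℂ) (hf : Bdd f) : Tendsto (fun i => M i f) (UF H) (𝓝 (L f)) := by
  have h : ∃ x, Tendsto (fun i => M i f) (UF H) (𝓝 x) := by
    obtain ⟨C, hC⟩ := hf
    have h1 : IsCompact (Metric.closedBall (0 : ℂ) C) := isCompact_closedBall _ _
    have h2 : ((UF H).map (fun i => M i f) : Filter ℂ) ≤ 𝓟 (Metric.closedBall (0 : ℂ) C) := by
      rw [le_principal_iff]
      apply Filter.mem_map.2
      apply Filter.univ_mem'
      intro i
      simpa using M_bound i f C hC
    obtain ⟨x, _, hx⟩ := h1.ultrafilter_le_nhds _ h2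
    exact ⟨x, hx⟩
  unfold L
  rw [dif_pos h]
  exact h.choose_spec

omit [AddCommGroup H] in
theorem bdd_ofReal {f : H → ℝ} (h : BddR f) : Bdd (fun x => (f x : ℂ)) := by
  obtain ⟨C, hC⟩ := h
  exact ⟨C, fun x => by rw [Complex.norm_real]; exact hC x⟩

/-- the invariant mean -/
noncomputable def inv (H : Type u) [AddCommGroup H] : St H where
  toFun := L
  add' f g hf hg := by
    have hfg : Bdd (fun x => f x + g x) := by
      obtain ⟨C, hC⟩ := hf
      obtain ⟨D, hD⟩ := hg
      exact ⟨C + D, fun x => (norm_add_le _ _).trans (add_le_add (hC x) (hD x))⟩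
    refine tendsto_nhds_unique (L_spec _ hfg) ?_
    refine ((L_spec f hf).add (L_spec g hg)).congr ?_
    intro i
    exact ((M i).add' f g hf hg).symm
  smul' c f hf := by
    have hcf : Bdd (fun x => c * f x) := by
      obtain ⟨C, hC⟩ := hf
      exact ⟨‖c‖ * C, fun x => by
        rw [norm_mul]; exact mul_le_mul_of_nonneg_left (hC x) (norm_nonneg _)⟩
    refine tendsto_nhds_unique (L_spec _ hcf) ?_
    refine ((L_spec f hf).const_mul c).congr ?_
    intro i
    exact ((M i).smul' c f hf).symm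
  real' f hf := by
    have h1 := (Complex.continuous_im.tendsto _).comp (L_spec _ (bdd_ofReal hf))
    refine tendsto_nhds_unique h1 ?_
    refine (tendsto_const_nhds (x := (0 : ℝ))).congr ?_
    intro i
    exact ((M i).real' f hf).symm
  nonneg' f hf h0 := by
    have h1 := (Complex.continuous_re.tendsto _).comp (L_spec _ (bdd_ofReal hf))
    refine ge_of_tendsto' h1 ?_
    intro i
    exact (M i).nonneg' f hf h0
  one' := by
    refine tendsto_nhds_unique (L_spec (fun _ : H => (1 : ℂ)) ⟨1, fun x => by simp⟩) ?_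
    refine (tendsto_const_nhds (x := (1 : ℂ))).congr ?_
    intro i
    exact ((M i).one').symm

theorem s_mean : S_mean.{u} := by
  intro H _
  refine ⟨inv H, ?_⟩
  intro f s hf
  have h1 := (L_spec _ (bdd_shift hf s)).sub (L_spec f hf)
  obtain ⟨C, hC⟩ := hf
  have h2 : Tendsto (fun i : Finset H × ℕ => M i (fun x => f (x + s)) - M i f) (UF H) (𝓝 0) := by
    apply Tendsto.mono_left _ UF_le
    apply squeeze_zero_norm' (a := fun i : Finset H × ℕ => 1 / ((i.2 : ℝ) + 1) * C)
    · filter_upwards [tendsto_fst.eventually (eventually_ge_atTop ({s} : Finset H))] with i hi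
      exact M_inv i s (hi (Finset.mem_singleton_self s)) f C hC
    · have h3 : Tendsto (fun i : Finset H × ℕ => i.2)
          ((atTop : Filter (Finset H)) ×ˢ (atTop : Filter ℕ)) atTop := tendsto_snd
      have h4 := (tendsto_one_div_add_atTop_nhds_zero_nat (𝕜 := ℝ)).comp h3
      have h5 := h4.mul_const C
      rw [zero_mul] at h5
      exact h5
  have h3 := tendsto_nhds_unique h1 h2
  exact sub_eq_zero.1 h3

end Pool.Agent.R715.Bohr
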